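import Pool.Agent.MP_81f5b7_pr.H66.Spec

/-! From ticks to a uniform order of the pairs. -/

set_option linter.unusedSectionVars false

namespace Pool.Agent.MP_81f5b7_pr.H66

open Finset
open scoped Classical

namespace LINK

variable {V : Type} [Fintype V] [DecidableEq V]

/-- a pair that was offered before is decided -/
theorem decided (S : Finset (V → C3)) (f : Sym2 V → Sym2 V) {u : List (Sym2 V)} {e : Sym2 V}
    (h : e ∈ u) : gr (run S (u.map fun e => {f e})) {f e} = run S (u.map fun e => {f e}) := by
  obtain ⟨a, b, rfl⟩ := List.append_of_mem h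
  have sub : run S ((a ++ e :: b).map fun e => {f e}) ⊆ gr (run S (a.map fun e => {f e})) {f e} := by
    rw [List.map_append, run_append, List.map_cons, run_cons]
    exact run_sub _ _
  generalize run S ((a ++ e :: b).map fun e => {f e}) = T at sub ⊢
  rw [gr_single] at sub ⊢
  split_ifs at sub ⊢ with h1 h2 h2
  · exact filter_true_of_mem fun σ hσ => (mem_filter.1 (sub hσ)).2
  · obtain ⟨σ, h3, h4⟩ := h1
    exact absurd ⟨σ, sub h3, h4⟩ h2
  · rfl
  · rfl

theorem ex_list (l : List (Finset (Sym2 V))) : ∃ u : List (Sym2 V), u.Nodup ∧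
    ∀ (S : Finset (V → C3)) (ρ : Equiv.Perm (Sym2 V)),
      run S (l.map (image ρ)) = run S (u.map fun e => {ρ e}) := by
  induction l using List.reverseRecOn with
  | nil => exact ⟨[], List.nodup_nil, fun _ _ => rfl⟩
  | append_singleton l B ih =>
    obtain ⟨u, hu, h⟩ := ih
    by_cases hB : B.card = 1
    · obtain ⟨e, rfl⟩ := card_eq_one.1 hB
      by_cases he : e ∈ u
      · refine ⟨u, hu, fun S ρ => ?_⟩
        rw [List.map_append, List.map_singleton, run_snoc, h, image_singleton, decided S ρ he]
      · refine ⟨u ++ [e], ?_, fun S ρ => ?_⟩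
        · rw [List.nodup_append]
          refine ⟨hu, List.nodup_singleton e, fun a ha b hb hab => he ?_⟩
          rwa [← List.mem_singleton.1 hb, ← hab]
        · rw [List.map_append, List.map_singleton, run_snoc, h, image_singleton, List.map_append,
            List.map_singleton, run_snoc]
    · refine ⟨u, hu, fun S ρ => ?_⟩
      rw [List.map_append, List.map_singleton, run_snoc, h]
      rcases gr_cases (run S (u.map fun e => {ρ e})) (B.image ρ) with e | ⟨x, y, -, e, -⟩
      · exact e
      · refine absurd ?_ hB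
        rw [← card_image_of_injective B ρ.injective, e, card_singleton]

theorem ex_order {α : Type} [Fintype α] [DecidableEq α] {u : List α} (hu : u.Nodup) :
    ∃ (π : α ≃ Fin (Fintype.card α)) (r : List α), List.ofFn π.symm = u ++ r := by
  have key : ∀ w : List α, w.Nodup → (∀ x, x ∈ w) → ∃ π : α ≃ Fin (Fintype.card α),
      List.ofFn π.symm = w := by
    intro w h1 h2
    have e : Fintype.card α = w.length := by
      rw [← Fintype.card_congr (h1.getEquivOfForallMemList w h2), Fintype.card_fin]
    rw [e]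
    exact ⟨(h1.getEquivOfForallMemList w h2).symm, List.ofFn_get w⟩
  obtain ⟨π, h⟩ := key (u ++ (univ \ u.toFinset).toList) (by
    rw [List.nodup_append]
    refine ⟨hu, nodup_toList _, fun a ha b hb hab => ?_⟩
    exact (mem_sdiff.1 (mem_toList.1 hb)).2 (List.mem_toFinset.2 (hab ▸ ha))) fun x => by
      by_cases hx : x ∈ u <;> simp [hx]
  exact ⟨π, _, h⟩

/-- orders and permutations -/
def shift {α β : Type} (π : α ≃ β) : Equiv.Perm α ≃ (α ≃ β) where
  toFun ρ := ρ.symm.trans π
  invFun π' := π.trans π'.symm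
  left_inv ρ := by ext x; simp
  right_inv π' := by ext x; simp

theorem point (S : Finset (V → C3)) (P : (V → C3) → Prop) (l : List (Finset (Sym2 V))) :
    (Nat.card {π : Sym2 V ≃ Fin (Fintype.card (Sym2 V)) // ∃ σ ∈ run S (ordl π), P σ} : ℝ) ≤
      ∑ ρ : Equiv.Perm (Sym2 V), ind (∃ σ ∈ run S (l.map (image ρ)), P σ) := by
  obtain ⟨u, hu, h⟩ := ex_list l
  obtain ⟨π, r, e⟩ := ex_order hu
  rw [Nat.card_eq_fintype_card, Fintype.card_subtype, card_filter_ind, ← (shift π).sum_comp]
  refine sum_le_sum fun ρ _ => ind_mono ?_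
  rintro ⟨σ, h1, h2⟩
  refine ⟨σ, ?_, h2⟩
  have e2 : ordl (shift π ρ) = (List.ofFn π.symm).map fun e => {ρ e} := by
    rw [List.map_ofFn]
    rfl
  rw [e2, e, List.map_append, run_append, ← h] at h1
  exact run_sub _ _ h1

end LINK

open LINK in
theorem rowLINK : SLINK := by
  intro V _ _ S P q m h0 h1
  have e : Nat.card (Sym2 V ≃ Fin (Fintype.card (Sym2 V))) = Fintype.card (Equiv.Perm (Sym2 V)) := by
    rw [← Nat.card_congr (shift (Fintype.equivFin (Sym2 V))), Nat.card_eq_fintype_card]
  have p : (0 : ℝ) < Fintype.card (Equiv.Perm (Sym2 V)) := by exact_mod_cast Fintype.card_pos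
  have h := EL_mono (m := m) h0 h1 fun l _ => point S P l
  rw [EL_const, EL_sum] at h
  rw [e, div_le_iff₀ p]
  refine h.trans (le_of_eq ?_)
  rw [sum_congr rfl fun ρ _ => EL_perm ρ fun l => ind (∃ σ ∈ run S l, P σ), sum_const, card_univ,
    nsmul_eq_mul, mul_comm]
  rfl

end Pool.Agent.MP_81f5b7_pr.H66
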